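import Pool.Agent.helper48.AN.SpecP

/-! Module PE of the project an (MP_263b92_ag): a `p`-linear map which is not nilpotent has a nonzero
fixed vector (Lang). -/

namespace AN

noncomputable section

/-- the polynomials of the fixed point equation -/
def PE_Y (p : ℕ) {K : Type} [Field K] (c : ℕ → K) : ℕ → Polynomial K
  | 0 => Polynomial.C (c 0) * Polynomial.X ^ p
  | i + 1 => PE_Y p c i ^ p + Polynomial.C (c (i + 1)) * Polynomial.X ^ p

theorem PE_Y_dvd (p : ℕ) [Fact p.Prime] {K : Type} [Field K] (c : ℕ → K) (i : ℕ) :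
    (Polynomial.X ^ p : Polynomial K) ∣ PE_Y p c i := by
  induction i with
  | zero => exact Dvd.intro_left _ rfl
  | succ i ih =>
    refine dvd_add (ih.trans (dvd_pow_self _ (Fact.out : p.Prime).ne_zero)) (Dvd.intro_left _ rfl)

theorem PE_Y_zero (p : ℕ) [Fact p.Prime] {K : Type} [Field K] (c : ℕ → K) (i : ℕ)
    (h : PE_Y p c i = 0) : ∀ j ≤ i, c j = 0 := by
  have hp := (Fact.out : p.Prime)
  induction i with
  | zero =>
    intro j hj
    obtain rfl : j = 0 := by omega
    have h1 : (Polynomial.C (c 0) * Polynomial.X ^ p : Polynomial K) = 0 := h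
    rw [Polynomial.C_mul_X_pow_eq_monomial, Polynomial.monomial_eq_zero_iff] at h1
    exact h1
  | succ i ih =>
    have h1 : PE_Y p c i ^ p + Polynomial.C (c (i + 1)) * Polynomial.X ^ p = 0 := h
    have h2 : (Polynomial.X ^ (p * p) : Polynomial K) ∣ PE_Y p c i ^ p := by
      rw [pow_mul]
      exact pow_dvd_pow_of_dvd (PE_Y_dvd p c i) p
    have h3 : (PE_Y p c i ^ p).coeff p = 0 := by
      rw [Polynomial.X_pow_dvd_iff] at h2
      apply h2
      nlinarith [hp.two_le]
    have h4 : c (i + 1) = 0 := by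
      have := congrArg (fun q => Polynomial.coeff q p) h1
      simpa [h3] using this
    rw [h4, Polynomial.C_0, zero_mul, add_zero] at h1
    have h5 : PE_Y p c i = 0 := eq_zero_of_pow_eq_zero h1
    intro j hj
    rcases Nat.le_succ_iff.mp hj with h6 | h6
    · exact ih h5 j h6
    · rw [h6]; exact h4

theorem PE_root (p : ℕ) [Fact p.Prime] {K : Type} [Field K] [IsAlgClosed K] (c : ℕ → K) (r : ℕ)
    (hc : ∃ j ≤ r, c j ≠ 0) : ∃ y : ℕ → K, y 0 = c 0 * y r ^ p ∧
      (∀ i, y (i + 1) = y i ^ p + c (i + 1) * y r ^ p) ∧ y r ≠ 0 := by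
  have hp := (Fact.out : p.Prime)
  obtain ⟨Q, hQ⟩ := PE_Y_dvd p c r
  have hQ0 : Q ≠ 0 := by
    rintro rfl
    rw [mul_zero] at hQ
    obtain ⟨j, hj, hcj⟩ := hc
    exact hcj (PE_Y_zero p c r hQ j hj)
  have hX : (Polynomial.X ^ (p - 1) * Q : Polynomial K).natDegree = (p - 1) + Q.natDegree := by
    rw [Polynomial.natDegree_mul (pow_ne_zero _ Polynomial.X_ne_zero) hQ0,
      Polynomial.natDegree_X_pow]
  have hdeg : (Polynomial.X ^ (p - 1) * Q - Polynomial.C 1 : Polynomial K).degree ≠ 0 := by
    intro h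
    have h1 := Polynomial.natDegree_eq_zero_iff_degree_le_zero.mpr (le_of_eq h)
    rw [Polynomial.natDegree_sub_C, hX] at h1
    have := hp.two_le
    omega
  obtain ⟨z, hz⟩ := IsAlgClosed.exists_root _ hdeg
  have hz1 : z ^ (p - 1) * Q.eval z = 1 := by
    have : Polynomial.eval z (Polynomial.X ^ (p - 1) * Q - Polynomial.C 1) = 0 := hz
    simp only [Polynomial.eval_sub, Polynomial.eval_mul, Polynomial.eval_pow, Polynomial.eval_X,
      Polynomial.eval_C] at this
    exact sub_eq_zero.mp this
  have hz0 : z ≠ 0 := by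
    rintro rfl
    rw [zero_pow (by have := hp.two_le; omega), zero_mul] at hz1
    exact zero_ne_one hz1
  have hYr : (PE_Y p c r).eval z = z := by
    rw [hQ, Polynomial.eval_mul, Polynomial.eval_pow, Polynomial.eval_X]
    have : z ^ p = z * z ^ (p - 1) := by
      rw [← pow_succ', Nat.sub_add_cancel hp.one_le]
    rw [this, mul_assoc, hz1, mul_one]
  refine ⟨fun i => (PE_Y p c i).eval z, ?_, ?_, ?_⟩
  · dsimp only
    rw [hYr]
    simp [PE_Y]
  · intro i
    dsimp only
    rw [hYr]
    simp [PE_Y]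
  · dsimp only
    rw [hYr]; exact hz0

theorem PE_frV_mulVec (p : ℕ) [Fact p.Prime] {R : Type} [CommRing R] [CharP R p] {g : ℕ}
    (M : Matrix (Fin g) (Fin g) R) (y : Fin g → R) :
    frV p (M.mulVec y) = (frM p M).mulVec (frV p y) := by
  funext i
  simp only [frV, frM, Matrix.mulVec, dotProduct, Matrix.map_apply]
  rw [sum_pow_char]
  exact Finset.sum_congr rfl (fun j _ => mul_pow _ _ _)

/-- the iterates -/
def PE_u (p : ℕ) {K : Type} [Field K] {g : ℕ} (H : Matrix (Fin g) (Fin g) K) (v : Fin g → K) :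
    ℕ → (Fin g → K)
  | 0 => v
  | n + 1 => H.mulVec (frV p (PE_u p H v n))

theorem PE_u_eq (p : ℕ) [Fact p.Prime] {K : Type} [Field K] [CharP K p] {g : ℕ}
    (H : Matrix (Fin g) (Fin g) K) (v : Fin g → K) (n : ℕ) :
    PE_u p H v n = (MN p H n).mulVec (fun i => v i ^ p ^ n) := by
  induction n with
  | zero => simp [MN, PE_u]
  | succ n ih =>
    simp only [PE_u, MN]
    rw [ih, PE_frV_mulVec, Matrix.mulVec_mulVec]
    congr 1
    funext i
    simp only [frV]
    rw [← pow_mul, pow_succ]

theorem PE_frV_sum (p : ℕ) [Fact p.Prime] {K : Type} [Field K] [CharP K p] {g : ℕ}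
    (H : Matrix (Fin g) (Fin g) K) (r : ℕ) (y : ℕ → K) (u : ℕ → (Fin g → K)) :
    H.mulVec (frV p (∑ i ∈ Finset.range r, y i • u i)) =
      ∑ i ∈ Finset.range r, y i ^ p • H.mulVec (frV p (u i)) := by
  have h1 : frV p (∑ i ∈ Finset.range r, y i • u i) =
      ∑ i ∈ Finset.range r, y i ^ p • frV p (u i) := by
    funext j
    simp only [frV, Finset.sum_apply, Pi.smul_apply, smul_eq_mul]
    rw [sum_pow_char]
    exact Finset.sum_congr rfl (fun j _ => mul_pow _ _ _)
  rw [h1, Matrix.mulVec_sum]
  exact Finset.sum_congr rfl (fun i _ => Matrix.mulVec_smul _ _ _)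

theorem PE : PE_stmt := by
  intro p _ K _ _ _ g H hH
  have hp := (Fact.out : p.Prime)
  obtain ⟨i₀, j₀, hij⟩ : ∃ i j, MN p H g i j ≠ 0 := by
    by_contra h
    push Not at h
    exact hH (by ext i j; exact h i j)
  set v : Fin g → K := Pi.single j₀ 1 with hv
  set u := PE_u p H v with hu
  have hug : u g ≠ 0 := by
    intro h
    rw [hu, PE_u_eq] at h
    have h1 : (fun i => v i ^ p ^ g) = Pi.single j₀ 1 := by
      funext i
      rw [hv]
      by_cases hi : i = j₀
      · subst hi; simp
      · simp [Pi.single_eq_of_ne hi, hp.ne_zero]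
    rw [h1, Matrix.mulVec_single_one] at h
    exact hij (congrFun h i₀)
  have hun0 : ∀ m n, u m = 0 → u (m + n) = 0 := by
    intro m n h
    induction n with
    | zero => exact h
    | succ n ih =>
      have h1 : u (m + (n + 1)) = H.mulVec (frV p (u (m + n))) := rfl
      rw [h1, ih]
      have h2 : frV p (0 : Fin g → K) = 0 := by
        funext i; simp [frV, hp.ne_zero]
      rw [h2, Matrix.mulVec_zero]
  have hun : ∀ m, m ≤ g → u m ≠ 0 := by
    intro m hm h
    have h1 := hun0 m (g - m) h
    rw [Nat.add_sub_cancel' hm] at h1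
    exact hug h1
  -- the minimal relation
  have hex : ∃ r, ¬ LinearIndependent K (fun i : Fin r => u i) := by
    refine ⟨g + 1, fun h => ?_⟩
    have := h.fintype_card_le_finrank
    simp at this
  classical
  obtain ⟨r', hr'⟩ : ∃ r, r + 1 = Nat.find hex := by
    have h0 : Nat.find hex ≠ 0 := by
      intro h0
      have h1 := Nat.find_spec hex
      apply h1
      rw [h0]
      exact linearIndependent_empty_type
    exact ⟨Nat.find hex - 1, by omega⟩
  have hli : LinearIndependent K (fun i : Fin r' => u i) := by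
    by_contra h
    have := Nat.find_min' hex h
    omega
  have hnli : ¬ LinearIndependent K (fun i : Fin (r' + 1) => u i) := by
    rw [hr']; exact Nat.find_spec hex
  have hr'g : r' ≤ g := by
    have := hli.fintype_card_le_finrank
    simpa using this
  have hmem : u r' ∈ Submodule.span K (Set.range (fun i : Fin r' => u i)) := by
    by_contra h
    apply hnli
    rw [linearIndependent_finSucc']
    exact ⟨hli, h⟩
  have hur' : u r' ≠ 0 := hun r' hr'g
  obtain ⟨r, rfl⟩ : ∃ r, r' = r + 1 := by
    cases r' with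
    | zero =>
      exfalso
      apply hur'
      have h1 : Set.range (fun i : Fin 0 => u i) = ∅ := Set.range_eq_empty _
      rw [h1, Submodule.span_empty, Submodule.mem_bot] at hmem
      exact hmem
    | succ r => exact ⟨r, rfl⟩
  rw [Submodule.mem_span_range_iff_exists_fun] at hmem
  obtain ⟨c₀, hc₀⟩ := hmem
  set c : ℕ → K := fun i => if h : i < r + 1 then c₀ ⟨i, h⟩ else 0 with hc
  have hsum : ∑ i ∈ Finset.range (r + 1), c i • u i = u (r + 1) := by
    rw [← hc₀, ← Fin.sum_univ_eq_sum_range (fun i => c i • u i) (r + 1)]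
    refine Finset.sum_congr rfl (fun i _ => ?_)
    simp only [hc]
    rw [dif_pos i.2]
  have hcne : ∃ j ≤ r, c j ≠ 0 := by
    by_contra h
    push Not at h
    apply hur'
    rw [← hsum]
    exact Finset.sum_eq_zero (fun i hi => by
      rw [h i (by have := Finset.mem_range.mp hi; omega), zero_smul])
  obtain ⟨y, hy0, hys, hyr⟩ := PE_root p c r hcne
  refine ⟨∑ i ∈ Finset.range (r + 1), y i • u i, ?_, ?_⟩
  · intro h
    rw [← Fin.sum_univ_eq_sum_range (fun i => y i • u i) (r + 1)] at h
    have h1 := Fintype.linearIndependent_iff.mp hli (fun i => y i) h (Fin.last r)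
    exact hyr h1
  · rw [PE_frV_sum]
    have h1 : ∀ i, H.mulVec (frV p (u i)) = u (i + 1) := fun i => rfl
    simp only [h1]
    rw [Finset.sum_range_succ' (fun i => y i • u i) r,
      Finset.sum_range_succ (fun i => y i ^ p • u (i + 1)) r, ← hsum,
      Finset.sum_range_succ' (fun i => c i • u i) r, hy0]
    simp only [hys, add_smul, Finset.sum_add_distrib, smul_add, Finset.smul_sum, smul_smul]
    rw [add_assoc]
    congr 2
    · refine Finset.sum_congr rfl (fun i _ => ?_)
      rw [mul_comm]
    · rw [mul_comm]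

end

end AN

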