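import Pool.Agent.helper48.AN.SpecP

/-! Module PG of the project an (MP_263b92_ag): ranks and homomorphisms. -/

namespace AN

noncomputable section

theorem PG_rank (K L : Type) [Field K] [Field L] (φ : K →+* L) (m n : ℕ)
    (M : Matrix (Fin m) (Fin n) K) : (M.map φ).rank = M.rank := by
  let : Algebra K L := φ.toAlgebra
  rw [Matrix.rank_eq_finrank_span_cols, Matrix.rank_eq_finrank_span_cols]
  obtain ⟨b, hb, hspan, hli⟩ := exists_linearIndependent K (Set.range M.col)
  have hfin : Finite b := (Set.finite_range M.col).subset hb
  have : Fintype b := Fintype.ofFinite b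
  let f : b → (Fin m → L) := fun v => algebraMap K L ∘ (v : Fin m → K)
  have hliL : LinearIndependent L f := linearIndependent_algebraMap_comp_iff.mpr hli
  have hspanL : Submodule.span L (Set.range (M.map φ).col) = Submodule.span L (Set.range f) := by
    apply le_antisymm
    · rw [Submodule.span_le]
      rintro _ ⟨j, rfl⟩
      have h1 : M.col j ∈ Submodule.span K b := by
        rw [hspan]; exact Submodule.subset_span ⟨j, rfl⟩
      have h2 : ∀ w ∈ Submodule.span K b, (algebraMap K L ∘ w : Fin m → L) ∈
          Submodule.span L (Set.range f) := by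
        intro w hw
        induction hw using Submodule.span_induction with
        | mem w hw => exact Submodule.subset_span ⟨⟨w, hw⟩, rfl⟩
        | zero =>
          have : (algebraMap K L ∘ (0 : Fin m → K) : Fin m → L) = 0 := by
            funext i; simp
          rw [this]; exact zero_mem _
        | add w w' _ _ h h' =>
          have : (algebraMap K L ∘ (w + w') : Fin m → L) = algebraMap K L ∘ w + algebraMap K L ∘ w' := by
            funext i; simp
          rw [this]; exact add_mem h h'
        | smul c w _ h =>
          have : (algebraMap K L ∘ (c • w) : Fin m → L) = algebraMap K L c • (algebraMap K L ∘ w) := by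
            funext i; simp
          rw [this]; exact Submodule.smul_mem _ _ h
      exact h2 _ h1
    · rw [Submodule.span_le]
      rintro _ ⟨⟨w, hw⟩, rfl⟩
      obtain ⟨j, rfl⟩ := hb hw
      exact Submodule.subset_span ⟨j, rfl⟩
  rw [hspanL, finrank_span_eq_card hliL, ← hspan]
  have h3 : Submodule.span K b = Submodule.span K (Set.range (Subtype.val : b → (Fin m → K))) := by
    rw [Subtype.range_coe]
  rw [h3, finrank_span_eq_card hli]

theorem PG_ker (R K : Type) [CommRing R] [Field K] (φ : R →+* K) (K' : Type) [Field K']
    (φ' : R →+* K') (hker : RingHom.ker φ = RingHom.ker φ') (m n : ℕ)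
    (M : Matrix (Fin m) (Fin n) R) : (M.map φ).rank = (M.map φ').rank := by
  have hp : (RingHom.ker φ).IsPrime := RingHom.ker_isPrime φ
  have hdom : IsDomain (R ⧸ RingHom.ker φ) := Ideal.Quotient.isDomain _
  let F := FractionRing (R ⧸ RingHom.ker φ)
  let ι : R →+* F := (algebraMap (R ⧸ RingHom.ker φ) F).comp (Ideal.Quotient.mk _)
  have key : ∀ (L : Type) [Field L] (ψ : R →+* L), RingHom.ker ψ = RingHom.ker φ →
      (M.map ψ).rank = (M.map ι).rank := by
    intro L _ ψ hψ
    let ψq : R ⧸ RingHom.ker φ →+* L := Ideal.Quotient.lift (RingHom.ker φ) ψ (fun a ha => by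
      rw [← hψ] at ha; exact ha)
    have hψq : Function.Injective ψq := by
      rw [injective_iff_map_eq_zero]
      intro y hy
      obtain ⟨r, rfl⟩ := Ideal.Quotient.mk_surjective y
      have h1 : ψ r = 0 := hy
      apply Ideal.Quotient.eq_zero_iff_mem.mpr
      rw [← hψ]; exact h1
    let ψF : F →+* L := IsFractionRing.lift hψq
    have h2 : M.map ψ = (M.map ι).map ψF := by
      ext i j
      simp only [Matrix.map_apply]
      exact (IsFractionRing.lift_algebraMap (K := F) hψq (Ideal.Quotient.mk _ (M i j))).symm
    rw [h2, PG_rank]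
  rw [key K φ rfl, key K' φ' hker.symm]

theorem PG : PG_stmt := by
  refine ⟨?_, PG_rank, PG_ker⟩
  intro p R R' _ _ φ g H n
  induction n with
  | zero =>
    simp only [MN]
    exact (Matrix.map_one φ (map_zero φ) (map_one φ)).symm
  | succ n ih =>
    simp only [MN]
    rw [ih, Matrix.map_mul]
    congr 1
    ext i j
    simp only [frM, Matrix.map_apply, map_pow]

end

end AN

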