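import Pool.Agent.helper48.AN.SpecP

/-! Module PH of the project an (MP_263b92_ag): fixed vectors are not integral over a local ring at
whose closed point the `p`-rank is 0. -/

namespace AN

noncomputable section

theorem PH_frV_mulVec (p : ℕ) [Fact p.Prime] {R : Type} [CommRing R] [CharP R p] {g : ℕ}
    (M : Matrix (Fin g) (Fin g) R) (y : Fin g → R) :
    frV p (M.mulVec y) = (frM p M).mulVec (frV p y) := by
  funext i
  simp only [frV, frM, Matrix.mulVec, dotProduct, Matrix.map_apply]
  rw [sum_pow_char]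
  exact Finset.sum_congr rfl (fun j _ => mul_pow _ _ _)

theorem PH_iter (p : ℕ) [Fact p.Prime] {R : Type} [CommRing R] [CharP R p] {g : ℕ}
    (H : Matrix (Fin g) (Fin g) R) (x : Fin g → R) (hx : x = H.mulVec (frV p x)) (n : ℕ) :
    x = (MN p H n).mulVec (fun i => x i ^ p ^ n) := by
  induction n with
  | zero =>
    simp [MN]
  | succ n ih =>
    have h1 : frV p x = (frM p (MN p H n)).mulVec (fun i => x i ^ p ^ (n + 1)) := by
      calc frV p x = frV p ((MN p H n).mulVec (fun i => x i ^ p ^ n)) := by rw [← ih]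
        _ = _ := by
          rw [PH_frV_mulVec]
          congr 1
          funext i
          simp only [frV]
          rw [← pow_mul, pow_succ]
    calc x = H.mulVec (frV p x) := hx
      _ = H.mulVec ((frM p (MN p H n)).mulVec (fun i => x i ^ p ^ (n + 1))) := by rw [← h1]
      _ = _ := by rw [Matrix.mulVec_mulVec]; rfl

theorem PH (hPG : PG_stmt) : PH_stmt := by
  intro p _ R _ _ g H hmax Ω _ _ φ hφ x hx0 hx
  by_contra hcon
  push Not at hcon
  obtain ⟨A, hA, hloc⟩ := IsLocalRing.exists_factor_valuationRing φ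
  set φA : R →+* A.toSubring := φ.codRestrict A.toSubring hA with hφA
  -- all `x i` are in `A`
  have hxA : ∀ i, x i ∈ A := by
    intro i
    obtain ⟨F, hF, hF0⟩ := hcon i
    have h2 : IsIntegral A (x i) := by
      refine ⟨F.map φA, hF.map φA, ?_⟩
      rw [Polynomial.eval₂_map]
      exact hF0
    obtain ⟨y, hy⟩ := IsIntegrallyClosed.isIntegral_iff.mp h2
    rw [← hy]
    exact y.2
  -- the maximal ideal
  have hmR : ∀ r ∈ IsLocalRing.maximalIdeal R, A.valuation (φ r) < 1 := by
    intro r hr
    have h1 : ¬ IsUnit (φA r) := fun h => (IsLocalRing.mem_maximalIdeal r).mp hr (h.of_map φA r)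
    have h2 : (⟨φ r, hA r⟩ : A) ∈ IsLocalRing.maximalIdeal A := h1
    exact (A.valuation_lt_one_iff ⟨φ r, hA r⟩).mp h2
  have hxm : ∀ i, A.valuation (x i) < 1 := by
    intro i
    have h1 := congrFun (PH_iter p (H.map φ) x hx g) i
    have h2 : ∀ j, A.valuation (MN p (H.map φ) g i j * x j ^ p ^ g) < 1 := by
      intro j
      have h3 : MN p (H.map φ) g i j = φ (MN p H g i j) := by
        rw [hPG.1 p R Ω φ g H g]; rfl
      rw [h3, map_mul, map_pow]
      have h4 := hmR _ (hmax i j)
      have h5 : A.valuation (x j) ^ p ^ g ≤ 1 :=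
        pow_le_one₀ zero_le ((A.valuation_le_one_iff (x j)).mpr (hxA j))
      calc A.valuation (φ (MN p H g i j)) * A.valuation (x j) ^ p ^ g
          ≤ A.valuation (φ (MN p H g i j)) * 1 := mul_le_mul_right h5 _
        _ < 1 := by rwa [mul_one]
    rw [h1]
    simp only [Matrix.mulVec, dotProduct]
    exact A.valuation.map_sum_lt one_ne_zero (fun j _ => h2 j)
  obtain ⟨i₀, hi₀⟩ : ∃ i, x i ≠ 0 := by
    by_contra h
    push Not at h
    exact hx0 (funext h)
  have hne : Nonempty (Fin g) := ⟨i₀⟩
  obtain ⟨j, hj⟩ := Finite.exists_max (fun i => A.valuation (x i))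
  have hj0 : 0 < A.valuation (x j) := by
    have h1 : 0 < A.valuation (x i₀) := by
      rw [zero_lt_iff]; exact (Valuation.ne_zero_iff _).mpr hi₀
    exact h1.trans_le (hj i₀)
  have hle : A.valuation (x j) ≤ A.valuation (x j) ^ p := by
    have h1 := congrFun hx j
    simp only [Matrix.mulVec, dotProduct, frV, Matrix.map_apply] at h1
    calc A.valuation (x j) = A.valuation (∑ i, φ (H j i) * x i ^ p) := by rw [← h1]
      _ ≤ A.valuation (x j) ^ p := by
        apply A.valuation.map_sum_le
        intro i _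
        rw [map_mul, map_pow]
        have h2 : A.valuation (φ (H j i)) ≤ 1 := (A.valuation_le_one_iff _).mpr (hA (H j i))
        calc A.valuation (φ (H j i)) * A.valuation (x i) ^ p
            ≤ 1 * A.valuation (x i) ^ p := mul_le_mul_left h2 _
          _ = A.valuation (x i) ^ p := one_mul _
          _ ≤ A.valuation (x j) ^ p := pow_le_pow_left₀ zero_le (hj i) p
  have hp : 2 ≤ p := (Fact.out : p.Prime).two_le
  have hlt : A.valuation (x j) ^ p < A.valuation (x j) := by
    obtain ⟨m, rfl⟩ : ∃ m, p = m + 2 := ⟨p - 2, by omega⟩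
    have h3 : A.valuation (x j) ^ (m + 1) < 1 := pow_lt_one₀ zero_le (hxm j) (by omega)
    calc A.valuation (x j) ^ (m + 2) = A.valuation (x j) ^ (m + 1) * A.valuation (x j) := pow_succ _ _
      _ < 1 * A.valuation (x j) := mul_lt_mul_of_pos_right h3 hj0
      _ = A.valuation (x j) := one_mul _
  exact absurd hle (not_le.mpr hlt)

end

end AN

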