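import Pool.Agent.helper48.AN.SpecP

/-! Module PI of the project an (MP_263b92_ag): elements which are not integral over a factorial
ring are not integral at some height one prime. -/

namespace AN

open Polynomial

noncomputable section

/-- the minimal primitive equation -/
theorem PI_min (P : Type) [CommRing P] [IsDomain P] [UniqueFactorizationMonoid P] (Ω : Type)
    [Field Ω] (φ : P →+* Ω) (hφ : Function.Injective φ) (x : Ω)
    (hx : ∃ F : Polynomial P, F ≠ 0 ∧ F.eval₂ φ x = 0) :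
    ∃ M : Polynomial P, M ≠ 0 ∧ M.eval₂ φ x = 0 ∧ ∀ G : Polynomial P, G.eval₂ φ x = 0 → M ∣ G := by
  let : StrongNormalizationMonoid P := UniqueFactorizationMonoid.strongNormalizationMonoid
  let : NormalizedGCDMonoid P := UniqueFactorizationMonoid.toNormalizedGCDMonoid P
  let K := FractionRing P
  let φK : K →+* Ω := IsFractionRing.lift hφ
  let : Algebra K Ω := φK.toAlgebra
  have hcomp : (algebraMap K Ω).comp (algebraMap P K) = φ := by
    ext c
    exact IsFractionRing.lift_algebraMap hφ c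
  have hev : ∀ G : Polynomial P, aeval x (G.map (algebraMap P K)) = G.eval₂ φ x := by
    intro G
    rw [aeval_def, eval₂_map, hcomp]
  have hxi : IsIntegral K x := by
    obtain ⟨F, hF, hF0⟩ := hx
    have h1 : IsAlgebraic K x := ⟨F.map (algebraMap P K), by
      rw [Ne, Polynomial.map_eq_zero_iff (IsFractionRing.injective P K)]; exact hF, by
      rw [hev, hF0]⟩
    exact h1.isIntegral
  set m := minpoly K x with hm
  set M₀ := IsLocalization.integerNormalization (nonZeroDivisors P) m with hM₀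
  obtain ⟨b, hb, hM₀m⟩ := IsLocalization.integerNormalization_spec (nonZeroDivisors P) m
  rw [← hM₀] at hM₀m
  have hm0 : m ≠ 0 := minpoly.ne_zero hxi
  have hM₀0 : M₀ ≠ 0 := by
    rw [hM₀, Ne, IsLocalization.integerNormalization_eq_zero_iff le_rfl]
    exact hm0
  have hc0 : M₀.content ≠ 0 := by
    rw [Ne, Polynomial.content_eq_zero_iff]; exact hM₀0
  have hb0 : (algebraMap P K) b ≠ 0 := by
    rw [Ne, map_eq_zero_iff _ (IsFractionRing.injective P K)]
    exact nonZeroDivisors.ne_zero hb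
  have hM0 : M₀.primPart ≠ 0 := Polynomial.primPart_ne_zero M₀
  have hMM : C (algebraMap P K M₀.content) * M₀.primPart.map (algebraMap P K) =
      C (algebraMap P K b) * m := by
    have h1 : M₀ = C M₀.content * M₀.primPart := M₀.eq_C_content_mul_primPart
    have h2 := hM₀m
    rw [h1, Polynomial.map_mul, Polynomial.map_C] at h2
    rw [h2]
    rw [Algebra.smul_def]
    rfl
  refine ⟨M₀.primPart, hM0, ?_, ?_⟩
  · have h1 := congrArg (aeval x) hMM
    rw [map_mul, map_mul, hev, hm, minpoly.aeval, mul_zero, aeval_C, mul_eq_zero] at h1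
    rcases h1 with h1 | h1
    · exfalso
      rw [map_eq_zero_iff _ (algebraMap K Ω).injective,
        map_eq_zero_iff _ (IsFractionRing.injective P K)] at h1
      exact hc0 h1
    · exact h1
  · intro G hG
    apply (Polynomial.isPrimitive_primPart M₀).dvd_of_fraction_map_dvd_fraction_map (K := K)
    have h1 : m ∣ G.map (algebraMap P K) := minpoly.dvd K x (by rw [hev, hG])
    have h2 : IsUnit (C (algebraMap P K M₀.content)) := by
      rw [Polynomial.isUnit_C, isUnit_iff_ne_zero]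
      rw [Ne, map_eq_zero_iff _ (IsFractionRing.injective P K)]
      exact hc0
    have h3 : IsUnit (C (algebraMap P K b)) := by
      rw [Polynomial.isUnit_C, isUnit_iff_ne_zero]; exact hb0
    have h4 : M₀.primPart.map (algebraMap P K) ∣ C (algebraMap P K b) * m := by
      rw [← hMM]; exact Dvd.intro_left _ rfl
    exact ((h3.dvd_mul_left).mp h4).trans h1

/-- the localisation at `π` as a subring of `Ω` -/
def PI_R (P : Type) [CommRing P] (Ω : Type) [Field Ω] (φ : P →+* Ω) (π : P) (hπ : Prime π) :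
    Subring Ω where
  carrier := {z | ∃ a b : P, ¬ π ∣ b ∧ z * φ b = φ a}
  mul_mem' := by
    rintro z z' ⟨a, b, hb, h⟩ ⟨a', b', hb', h'⟩
    refine ⟨a * a', b * b', fun hd => ?_, ?_⟩
    · rcases hπ.dvd_or_dvd hd with h1 | h1
      · exact hb h1
      · exact hb' h1
    · rw [map_mul, map_mul, ← h, ← h']; ring
  one_mem' := ⟨1, 1, fun h => hπ.not_isUnit (isUnit_of_dvd_one h), by simp⟩
  add_mem' := by
    rintro z z' ⟨a, b, hb, h⟩ ⟨a', b', hb', h'⟩
    refine ⟨a * b' + a' * b, b * b', fun hd => ?_, ?_⟩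
    · rcases hπ.dvd_or_dvd hd with h1 | h1
      · exact hb h1
      · exact hb' h1
    · rw [map_mul, map_add, map_mul, map_mul, ← h, ← h']; ring
  zero_mem' := ⟨0, 1, fun h => hπ.not_isUnit (isUnit_of_dvd_one h), by simp⟩
  neg_mem' := by
    rintro z ⟨a, b, hb, h⟩
    exact ⟨-a, b, hb, by rw [map_neg, ← h]; ring⟩

theorem PI_clear (P : Type) [CommRing P] (Ω : Type) [Field Ω] (φ : P →+* Ω) (π : P)
    (hπ : Prime π) (F : Polynomial (PI_R P Ω φ π hπ)) :
    ∃ (b : P) (G : Polynomial P), ¬ π ∣ b ∧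
      G.map φ = C (φ b) * F.map (algebraMap (PI_R P Ω φ π hπ) Ω) := by
  induction F using Polynomial.induction_on' with
  | add F F' hF hF' =>
    obtain ⟨b, G, hb, hG⟩ := hF
    obtain ⟨b', G', hb', hG'⟩ := hF'
    refine ⟨b * b', C b' * G + C b * G', fun hd => ?_, ?_⟩
    · rcases hπ.dvd_or_dvd hd with h1 | h1
      · exact hb h1
      · exact hb' h1
    · rw [Polynomial.map_add, Polynomial.map_add, Polynomial.map_mul, Polynomial.map_mul, hG, hG',
        Polynomial.map_C, Polynomial.map_C, map_mul, Polynomial.C_mul]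
      ring
  | monomial n z =>
    obtain ⟨a, b, hb, h⟩ := z.2
    refine ⟨b, monomial n a, hb, ?_⟩
    rw [Polynomial.map_monomial, Polynomial.map_monomial, C_mul_monomial]
    have h' : φ a = φ b * (z : Ω) := by rw [← h, mul_comm]
    exact congrArg (monomial n) h'

theorem PI_notint (P : Type) [CommRing P] [IsDomain P] (Ω : Type) [Field Ω] (φ : P →+* Ω)
    (hφ : Function.Injective φ) (x : Ω) (M : Polynomial P)
    (hM : ∀ G : Polynomial P, G.eval₂ φ x = 0 → M ∣ G) (π : P) (hπ : Prime π)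
    (hπM : π ∣ M.leadingCoeff) : ¬ IsIntegral (PI_R P Ω φ π hπ) x := by
  rintro ⟨F, hF, hx⟩
  obtain ⟨b, G, hb, hG⟩ := PI_clear P Ω φ π hπ F
  have hG0 : G.eval₂ φ x = 0 := by
    rw [← Polynomial.eval_map, hG, Polynomial.eval_mul, Polynomial.eval_map, hx, mul_zero]
  have hd := hM G hG0
  have hFm := hF.map (algebraMap (PI_R P Ω φ π hπ) Ω)
  have hlc : φ G.leadingCoeff = φ b := by
    rw [← Polynomial.leadingCoeff_map_of_injective hφ, hG, Polynomial.leadingCoeff_mul,
      hFm.leadingCoeff, Polynomial.leadingCoeff_C, mul_one]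
  have hlc' : G.leadingCoeff = b := hφ hlc
  have h1 : M.leadingCoeff ∣ G.leadingCoeff := by
    obtain ⟨Q, rfl⟩ := hd
    rw [Polynomial.leadingCoeff_mul]
    exact Dvd.intro _ rfl
  rw [hlc'] at h1
  exact hb (hπM.trans h1)

theorem PI : PI_stmt := by
  intro P _ _ _ Ω _ φ hφ halg x hx
  obtain ⟨M, hM0, hMx, hM⟩ := PI_min P Ω φ hφ x (halg x)
  have hlc0 : M.leadingCoeff ≠ 0 := Polynomial.leadingCoeff_ne_zero.mpr hM0
  have hlcu : ¬ IsUnit M.leadingCoeff := by
    intro hu
    obtain ⟨u, hu'⟩ := hu.exists_left_inv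
    apply hx
    refine ⟨C u * M, ?_, ?_⟩
    · unfold Polynomial.Monic
      rw [Polynomial.leadingCoeff_mul, Polynomial.leadingCoeff_C, hu']
    · rw [Polynomial.eval₂_mul, hMx, mul_zero]
  obtain ⟨π, hπi, hπM⟩ := WfDvdMonoid.exists_irreducible_factor hlcu hlc0
  have hπ : Prime π := hπi.prime
  have hnot := PI_notint P Ω φ hφ x M hM π hπ hπM
  set R₀ := PI_R P Ω φ π hπ with hR₀
  have hxS : x ∉ (integralClosure R₀ Ω).toSubring := hnot
  obtain ⟨V, hSV, hxV⟩ := Subring.exists_le_valuationSubring_of_isIntegrallyClosedIn hxS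
  have hR₀V : ∀ z ∈ R₀, z ∈ V := by
    intro z hz
    exact hSV (algebraMap_mem (integralClosure R₀ Ω) (⟨z, hz⟩ : R₀))
  have hPV : ∀ c, φ c ∈ V := by
    intro c
    exact hR₀V _ ⟨c, 1, fun h => hπ.not_isUnit (isUnit_of_dvd_one h), by simp⟩
  have hne : ∀ c, ¬ π ∣ c → φ c ≠ 0 := by
    intro c hc h
    rw [map_eq_zero_iff φ hφ] at h
    exact hc (h ▸ dvd_zero π)
  have hinv : ∀ c, ¬ π ∣ c → (φ c)⁻¹ ∈ V := by
    intro c hc
    refine hR₀V _ ⟨1, c, hc, ?_⟩
    rw [map_one]
    exact inv_mul_cancel₀ (hne c hc)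
  refine ⟨π, hπ, V, hxV, hPV, fun c => ⟨?_, fun hc => ⟨hinv c hc, hne c hc⟩⟩⟩
  rintro ⟨hcV, hc0⟩ ⟨d, rfl⟩
  rw [map_mul] at hcV hc0
  have hπ0 : φ π ≠ 0 := left_ne_zero_of_mul hc0
  have hd0 : φ d ≠ 0 := right_ne_zero_of_mul hc0
  have hπV : (φ π)⁻¹ ∈ V := by
    have h1 : (φ π)⁻¹ = φ d * (φ π * φ d)⁻¹ := by
      field_simp
    rw [h1]
    exact V.mul_mem _ _ (hPV d) hcV
  have hall : ∀ e, e ≠ 0 → (φ e)⁻¹ ∈ V := by
    intro e he
    obtain ⟨n, e', he', rfl⟩ := WfDvdMonoid.max_power_factor he hπi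
    rw [map_mul, map_pow, mul_inv, ← inv_pow]
    exact V.mul_mem _ _ (V.toSubring.pow_mem hπV n) (hinv e' he')
  apply hxV
  obtain ⟨F, hF, hF0⟩ := halg x
  have hint : IsIntegral V x := by
    let g : P →+* V := φ.codRestrict V hPV
    have hg : (algebraMap V Ω).comp g = φ := by ext c; rfl
    refine ⟨C ⟨(φ F.leadingCoeff)⁻¹, hall _ (Polynomial.leadingCoeff_ne_zero.mpr hF)⟩ * F.map g,
      ?_, ?_⟩
    · have hgi : Function.Injective g := by
        intro c c' h
        apply hφ
        rw [← hg, RingHom.comp_apply, RingHom.comp_apply, h]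
      unfold Polynomial.Monic
      rw [Polynomial.leadingCoeff_mul, Polynomial.leadingCoeff_C,
        Polynomial.leadingCoeff_map_of_injective hgi]
      apply Subtype.ext
      have h1 : φ F.leadingCoeff ≠ 0 := by
        rw [Ne, map_eq_zero_iff φ hφ]; exact Polynomial.leadingCoeff_ne_zero.mpr hF
      exact inv_mul_cancel₀ h1
    · rw [Polynomial.eval₂_mul, Polynomial.eval₂_map, hg, hF0, mul_zero]
  obtain ⟨y, hy⟩ := IsIntegrallyClosed.isIntegral_iff.mp hint
  rw [← hy]
  exact y.2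

end

end AN

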