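import Pool.Agent.helper48.AN.SpecP

/-! Module PK of the project an (MP_263b92_ag): one step of the purity theorem. -/

namespace AN

open MvPowerSeries (constantCoeff)

noncomputable section

theorem PK_nonunit {R : Type} [CommRing R] [IsLocalRing R] (q : Ideal R) (hq : q.IsPrime) (b : R)
    (hb : ¬ IsUnit b) : ¬ IsUnit (Ideal.Quotient.mk q b) := by
  intro h
  obtain ⟨c, hc⟩ := h.exists_right_inv
  obtain ⟨c', rfl⟩ := Ideal.Quotient.mk_surjective c
  rw [← map_mul, ← map_one (Ideal.Quotient.mk q), Ideal.Quotient.eq] at hc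
  have h1 : b * c' - 1 ∈ IsLocalRing.maximalIdeal R := IsLocalRing.le_maximalIdeal hq.ne_top hc
  have h2 : b * c' ∈ IsLocalRing.maximalIdeal R :=
    Ideal.mul_mem_right _ _ ((IsLocalRing.mem_maximalIdeal b).mpr hb)
  have h3 : (1 : R) ∈ IsLocalRing.maximalIdeal R := by
    have := Ideal.sub_mem _ h2 h1
    rwa [sub_sub_cancel] at this
  exact (Ideal.ne_top_iff_one _).mp (IsLocalRing.maximalIdeal.isMaximal R).ne_top h3

theorem PK_field0 (k : Type) [Field k] (b : BB k 0) (hb : b ≠ 0) : IsUnit b := by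
  rw [MvPowerSeries.isUnit_iff_constantCoeff]
  rw [isUnit_iff_ne_zero]
  intro h
  apply hb
  ext m
  have hm : m = 0 := Subsingleton.elim _ _
  rw [hm]
  simpa using h

/-- elements of `V` -/
theorem PK_unit {Ω : Type} [Field Ω] (V : ValuationSubring Ω) (v : V) :
    IsLocalRing.residue V v = 0 ↔ ¬ ((v : Ω)⁻¹ ∈ V ∧ (v : Ω) ≠ 0) := by
  rw [IsLocalRing.residue_eq_zero_iff, IsLocalRing.mem_maximalIdeal, mem_nonunits_iff, not_iff_not]
  constructor
  · intro h
    obtain ⟨w, hw⟩ := h.exists_right_inv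
    have h1 : (v : Ω) * (w : Ω) = 1 := by exact_mod_cast congrArg (Subtype.val) hw
    refine ⟨?_, left_ne_zero_of_mul_eq_one h1⟩
    rw [inv_eq_of_mul_eq_one_right h1]
    exact w.2
  · rintro ⟨h1, h2⟩
    refine IsUnit.of_mul_eq_one ⟨(v : Ω)⁻¹, h1⟩ ?_
    apply Subtype.ext
    exact mul_inv_cancel₀ h2

theorem PK_integral {P R Ω : Type} [CommRing P] [CommRing R] [Field Ω] (φ₀ : P →+* R)
    (h₀ : φ₀.Finite) (φ : R →+* Ω) (V : ValuationSubring Ω) (hV : ∀ c, φ (φ₀ c) ∈ V) (r : R) :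
    φ r ∈ V := by
  have h1 : φ₀.IsIntegralElem r := h₀.to_isIntegral r
  obtain ⟨F, hF, hr⟩ := h1
  let g : P →+* V := (φ.comp φ₀).codRestrict V hV
  have h2 : IsIntegral V (φ r) := by
    refine ⟨F.map g, hF.map g, ?_⟩
    rw [Polynomial.eval₂_map]
    have h3 : (algebraMap V Ω).comp g = φ.comp φ₀ := by
      ext c; rfl
    rw [h3, ← Polynomial.hom_eval₂, hr, map_zero]
  obtain ⟨y, hy⟩ := IsIntegrallyClosed.isIntegral_iff.mp h2
  rw [← hy]
  exact y.2

theorem PK_alg {P R : Type} [CommRing P] [IsDomain P] [CommRing R] [IsDomain R] (φ₀ : P →+* R)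
    (h : φ₀.Finite) (hi : Function.Injective φ₀) (y : AlgebraicClosure (FractionRing R)) :
    ∃ G : Polynomial P, G ≠ 0 ∧
      G.eval₂ (((algebraMap (FractionRing R) (AlgebraicClosure (FractionRing R))).comp
        (algebraMap R (FractionRing R))).comp φ₀) y = 0 := by
  let : Algebra P R := φ₀.toAlgebra
  have hfin : Module.Finite P R := h
  have halg1 : Algebra.IsAlgebraic P R := inferInstance
  have hfs : FaithfulSMul P R := (faithfulSMul_iff_algebraMap_injective P R).mpr hi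
  have htf : Module.IsTorsionFree P (FractionRing R) :=
    Module.IsTorsionFree.trans_faithfulSMul P R (FractionRing R)
  have halg2 : Algebra.IsAlgebraic P (FractionRing R) :=
    (IsFractionRing.isAlgebraic_iff' P R (FractionRing R)).mp halg1
  have halg4 : Algebra.IsAlgebraic P (AlgebraicClosure (FractionRing R)) :=
    Algebra.IsAlgebraic.trans P (FractionRing R) _
  obtain ⟨G, hG, hG0⟩ := halg4.isAlgebraic y
  refine ⟨G, hG, ?_⟩
  rw [Polynomial.aeval_def] at hG0
  exact hG0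

theorem PK (hPA : PA_stmt) (hPC : PC_stmt) (hPE : PE_stmt) (hPG : PG_stmt) (hPH : PH_stmt)
    (hPI : PI_stmt) (hPJ : PJ_stmt) : PK_stmt := by
  intro p _ k _ _ _ N g H hH q hq n f hC hf hf0
  obtain ⟨hG1, -, hG3⟩ := hPG
  obtain ⟨φ₀, hφ₀i, hφ₀f⟩ := hC
  have hInf : Infinite k := IsAlgClosed.instInfinite
  -- the ring `R`
  have hdom : IsDomain (BB k N ⧸ q) := Ideal.Quotient.isDomain q
  have hloc : IsLocalRing (BB k N ⧸ q) :=
    IsLocalRing.of_surjective' (Ideal.Quotient.mk q) Ideal.Quotient.mk_surjective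
  let F := FractionRing (BB k N ⧸ q)
  let Ω := AlgebraicClosure F
  let φ : BB k N ⧸ q →+* Ω := (algebraMap F Ω).comp (algebraMap (BB k N ⧸ q) F)
  have hφ : Function.Injective φ :=
    (algebraMap F Ω).injective.comp (IsFractionRing.injective (BB k N ⧸ q) F)
  have hchar : CharP Ω p := by
    have h1 : Function.Injective ((φ.comp (Ideal.Quotient.mk q)).comp (algebraMap k (BB k N))) :=
      RingHom.injective _
    exact charP_of_injective_ringHom h1 p
  let ψ : BB k N →+* Ω := φ.comp (Ideal.Quotient.mk q)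
  have hker : RingHom.ker ψ = q := by
    ext b
    rw [RingHom.mem_ker, RingHom.comp_apply, map_eq_zero_iff φ hφ, Ideal.Quotient.eq_zero_iff_mem]
  have hrank : (MN p (H.map ψ) g).rank = f := hf Ω ψ hker
  have hMN0 : MN p (H.map ψ) g ≠ 0 := by
    intro h
    rw [h, Matrix.rank_zero] at hrank
    omega
  obtain ⟨x, hx0, hx⟩ := hPE p Ω g (H.map ψ) hMN0
  have hmax : ∀ i j, MN p (H.map (Ideal.Quotient.mk q)) g i j ∈
      IsLocalRing.maximalIdeal (BB k N ⧸ q) := by
    intro i j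
    rw [hG1 p _ _ (Ideal.Quotient.mk q) g H g, Matrix.map_apply, IsLocalRing.mem_maximalIdeal,
      mem_nonunits_iff]
    apply PK_nonunit q hq
    rw [MvPowerSeries.isUnit_iff_constantCoeff]
    have h1 := hH
    unfold PNil at h1
    rw [hG1 p _ _ (constantCoeff (σ := Fin N) (R := k)) g H g] at h1
    have h2 : constantCoeff (MN p H g i j) = 0 := congrFun (congrFun h1 i) j
    rw [h2]
    exact not_isUnit_zero
  have hmapψ : (H.map (Ideal.Quotient.mk q)).map φ = H.map ψ := by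
    ext i j; rfl
  obtain ⟨i, hi⟩ := hPH p (BB k N ⧸ q) g (H.map (Ideal.Quotient.mk q)) hmax Ω φ hφ x hx0
    (by rw [hmapψ]; exact hx)
  -- the ring `P`
  have hUFD : UniqueFactorizationMonoid (BB k n) := hPA k n
  have hPdom : IsDomain (BB k n) := NoZeroDivisors.to_isDomain _
  let φP : BB k n →+* Ω := φ.comp φ₀.toRingHom
  have hφP : Function.Injective φP := hφ.comp hφ₀i
  have hnot : ¬ φP.IsIntegralElem (x i) := by
    rintro ⟨G, hG, hG0⟩
    apply hi
    refine ⟨G.map φ₀.toRingHom, hG.map _, ?_⟩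
    rw [Polynomial.eval₂_map]
    exact hG0
  have halg : ∀ y : Ω, ∃ G : Polynomial (BB k n), G ≠ 0 ∧ G.eval₂ φP y = 0 := by
    intro y
    exact PK_alg φ₀.toRingHom hφ₀f hφ₀i y
  obtain ⟨π, hπ, V, hxV, hPV, hV⟩ := hPI (BB k n) Ω φP hφP halg (x i) hnot
  have hRV : ∀ r, φ r ∈ V := PK_integral φ₀.toRingHom hφ₀f φ V hPV
  let φV : BB k N ⧸ q →+* V := φ.codRestrict V hRV
  let HV : Matrix (Fin g) (Fin g) V := H.map (φV.comp (Ideal.Quotient.mk q))
  have hHV : HV.map (algebraMap V Ω) = H.map ψ := by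
    ext i j; rfl
  have hlt := hPJ p Ω V g HV x (by rw [hHV]; exact hx) ⟨i, hxV⟩
  rw [hHV, hrank] at hlt
  let ρ : BB k N →+* IsLocalRing.ResidueField V :=
    (IsLocalRing.residue V).comp (φV.comp (Ideal.Quotient.mk q))
  have hHρ : HV.map (IsLocalRing.residue V) = H.map ρ := by
    ext i j; rfl
  rw [hHρ] at hlt
  have hqq : q ≤ RingHom.ker ρ := by
    intro b hb
    rw [RingHom.mem_ker]
    have h1 : Ideal.Quotient.mk q b = 0 := Ideal.Quotient.eq_zero_iff_mem.mpr hb
    simp only [ρ, RingHom.comp_apply, h1, map_zero]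
  -- `n = n' + 1`
  obtain ⟨n', rfl⟩ : ∃ n', n = n' + 1 := by
    cases n with
    | zero => exact absurd (PK_field0 k π hπ.ne_zero) hπ.not_isUnit
    | succ n' => exact ⟨n', rfl⟩
  obtain ⟨φc, hφci, hφcf⟩ := hPC k n' π hπ.ne_zero hπ.not_isUnit
  let θ : BB k N ⧸ q →ₐ[k] BB k N ⧸ (RingHom.ker ρ) := Ideal.Quotient.factorₐ k hqq
  have hθs : Function.Surjective θ := Ideal.Quotient.factor_surjective hqq
  let β : BB k (n' + 1) →ₐ[k] BB k N ⧸ (RingHom.ker ρ) := θ.comp φ₀
  have hβ : ∀ c, β c = 0 ↔ π ∣ c := by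
    intro c
    obtain ⟨b, hb⟩ := Ideal.Quotient.mk_surjective (φ₀ c)
    have h1 : β c = Ideal.Quotient.mk (RingHom.ker ρ) b := by
      simp only [β, AlgHom.comp_apply, ← hb]
      rfl
    rw [h1, Ideal.Quotient.eq_zero_iff_mem, RingHom.mem_ker]
    have h2 : ρ b = IsLocalRing.residue V (φV (φ₀ c)) := by
      simp only [ρ, RingHom.comp_apply, hb]
    rw [h2, PK_unit, ← not_iff_not, not_not]
    exact hV c
  have hle : ∀ c ∈ Ideal.span {π}, β c = 0 := by
    intro c hc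
    exact (hβ c).mpr (Ideal.mem_span_singleton.mp hc)
  let γ : (BB k (n' + 1) ⧸ Ideal.span {π}) →ₐ[k] BB k N ⧸ (RingHom.ker ρ) :=
    Ideal.Quotient.liftₐ (Ideal.span {π}) β hle
  have hγi : Function.Injective γ := by
    rw [injective_iff_map_eq_zero]
    intro y hy
    obtain ⟨c, rfl⟩ := Ideal.Quotient.mk_surjective y
    have h1 : γ (Ideal.Quotient.mk (Ideal.span {π}) c) = β c := rfl
    rw [h1] at hy
    exact Ideal.Quotient.eq_zero_iff_mem.mpr (Ideal.mem_span_singleton.mpr ((hβ c).mp hy))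
  have hβf : β.toRingHom.Finite :=
    (RingHom.Finite.of_surjective θ.toRingHom hθs).comp hφ₀f
  have hγf : γ.toRingHom.Finite := by
    apply RingHom.Finite.of_comp_finite (f := Ideal.Quotient.mk (Ideal.span {π}))
    exact hβf
  refine ⟨RingHom.ker ρ, n', (MN p (H.map ρ) g).rank, RingHom.ker_isPrime ρ, rfl,
    ⟨γ.comp φc, hγi.comp hφci, hγf.comp hφcf⟩, ?_, hlt⟩
  intro Ω' _ ψ' hψ'
  rw [hG1 p _ _ ψ' g H g, hG1 p _ _ ρ g H g]
  exact hG3 _ _ ψ' _ ρ hψ' _ _ _

end

end AN
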