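import Pool.Agent.helper48.AN.SpecP

/-! Module PL of the project an (MP_263b92_ag): purity, by iteration of PK. -/

namespace AN

open MvPowerSeries (constantCoeff)

noncomputable section

theorem PL (hPK : PK_stmt) (hPG : PG_stmt) : PL_stmt := by
  intro p _ k _ _ _ N g H hH
  have hG1 := hPG.1
  have hG3 := hPG.2.2
  have key : ∀ f : ℕ, ∀ (q : Ideal (BB k N)), q.IsPrime → ∀ n : ℕ, Cfin k N q n → rkq p H q f →
      ∃ (q' : Ideal (BB k N)) (n' : ℕ), q'.IsPrime ∧ n ≤ n' + f ∧ Cfin k N q' n' ∧
        ∀ i j, MN p H g i j ∈ q' := by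
    intro f
    induction f using Nat.strong_induction_on with
    | _ f ih =>
      intro q hq n hC hf
      rcases Nat.eq_zero_or_pos f with rfl | hf0
      · refine ⟨q, n, hq, by omega, hC, ?_⟩
        have hdom : IsDomain (BB k N ⧸ q) := Ideal.Quotient.isDomain q
        let ψ : BB k N →+* FractionRing (BB k N ⧸ q) :=
          (algebraMap (BB k N ⧸ q) (FractionRing (BB k N ⧸ q))).comp (Ideal.Quotient.mk q)
        have hker : RingHom.ker ψ = q := by
          ext b
          rw [RingHom.mem_ker, RingHom.comp_apply,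
            map_eq_zero_iff _ (IsFractionRing.injective (BB k N ⧸ q) _),
            Ideal.Quotient.eq_zero_iff_mem]
        have h1 := hf _ ψ hker
        have h1' : MN p (H.map ψ) g = 0 := by
          unfold Matrix.rank at h1
          rw [Submodule.finrank_eq_zero, LinearMap.range_eq_bot] at h1
          ext i j
          have h2 := congrFun (LinearMap.congr_fun h1 (Pi.single j 1)) i
          rw [Matrix.mulVecLin_apply, Matrix.mulVec_single_one] at h2
          exact h2
        rw [hG1 p _ _ ψ g H g] at h1'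
        intro i j
        rw [← hker, RingHom.mem_ker]
        exact congrFun (congrFun h1' i) j
      · obtain ⟨q', n', f', hq', hn, hC', hf', hlt⟩ := hPK p k N g H hH q hq n f hC hf hf0
        obtain ⟨q'', n'', h1, h2, h3, h4⟩ := ih f' hlt q' hq' n' hC' hf'
        exact ⟨q'', n'', h1, by omega, h3, h4⟩
  have hdomB : IsDomain (BB k N) := NoZeroDivisors.to_isDomain _
  have hbot : (⊥ : Ideal (BB k N)).IsPrime := Ideal.isPrime_bot
  have hC : Cfin k N ⊥ N := by
    refine ⟨Ideal.Quotient.mkₐ k ⊥, ?_, ?_⟩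
    · rw [injective_iff_map_eq_zero]
      intro b hb
      have : b ∈ (⊥ : Ideal (BB k N)) := Ideal.Quotient.eq_zero_iff_mem.mp hb
      exact this
    · exact RingHom.Finite.of_surjective _ Ideal.Quotient.mk_surjective
  let ψ₀ : BB k N →+* FractionRing (BB k N) := algebraMap _ _
  have hker₀ : RingHom.ker ψ₀ = ⊥ := by
    rw [← RingHom.injective_iff_ker_eq_bot]
    exact IsFractionRing.injective (BB k N) _
  have hrk : rkq p H ⊥ (MN p (H.map ψ₀) g).rank := by
    intro Ω _ ψ hψ
    rw [hG1 p _ _ ψ g H g, hG1 p _ _ ψ₀ g H g]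
    exact hG3 _ _ ψ _ ψ₀ (hψ.trans hker₀.symm) _ _ _
  obtain ⟨q, n, hq, hn, hC', hm⟩ := key _ ⊥ hbot N hC hrk
  have hle : (MN p (H.map ψ₀) g).rank ≤ g := by
    have := Matrix.rank_le_card_width (MN p (H.map ψ₀) g)
    rwa [Fintype.card_fin] at this
  exact ⟨q, n, hq, by omega, hC', hm⟩

end

end AN

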