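import Pool.Agent.helper48.AN.SpecP

/-! Module PO of the project an (MP_263b92_ag): curve selection. -/

namespace AN

open MvPowerSeries (constantCoeff)

noncomputable section

theorem PO_le (k : Type) [Field k] (N : ℕ) (q : Ideal (BB k N)) (hq : q.IsPrime) (b : BB k N)
    (hb : b ∈ q) : constantCoeff b = 0 := by
  by_contra h
  have h1 : IsUnit b := by
    rw [MvPowerSeries.isUnit_iff_constantCoeff]; exact isUnit_iff_ne_zero.mpr h
  exact hq.ne_top (Ideal.eq_top_of_isUnit_mem q hb h1)

/-- `k`-algebra homomorphisms to `k[[X]]` preserve the constant terms -/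
theorem PO_const (k : Type) [Field k] (N : ℕ) (Φ : BB k N →ₐ[k] PowerSeries k) (b : BB k N) :
    PowerSeries.constantCoeff (Φ b) = constantCoeff b := by
  set a := constantCoeff b with ha
  have key : PowerSeries.constantCoeff (Φ (b - algebraMap k (BB k N) a)) = 0 := by
    by_contra ht
    set t := PowerSeries.constantCoeff (Φ (b - algebraMap k (BB k N) a)) with htd
    have h1 : IsUnit (1 - algebraMap k (BB k N) t⁻¹ * (b - algebraMap k (BB k N) a)) := by
      rw [MvPowerSeries.isUnit_iff_constantCoeff]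
      have h2 : constantCoeff (algebraMap k (BB k N) a) = a := by
        rw [MvPowerSeries.algebraMap_apply]; simp
      rw [map_sub, map_mul, map_sub, h2, ← ha, sub_self, mul_zero, map_one, sub_zero]
      exact isUnit_one
    have h3 := h1.map Φ
    rw [PowerSeries.isUnit_iff_constantCoeff, map_sub, map_one, map_sub, map_mul, map_mul, map_one,
      ← htd, AlgHom.commutes, PowerSeries.algebraMap_apply] at h3
    simp only [Algebra.algebraMap_self, RingHom.id_apply, PowerSeries.constantCoeff_C] at h3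
    rw [inv_mul_cancel₀ ht, sub_self] at h3
    exact not_isUnit_zero h3
  rw [map_sub, AlgHom.commutes, map_sub, sub_eq_zero] at key
  rw [key, PowerSeries.algebraMap_apply]
  simp

theorem PO (hPO1 : PO1_stmt) (hPO2 : PO2_stmt) : PO_stmt := by
  intro k _ _ N n q hq hC μ hμ
  suffices h : ∃ Φ : BB k N →ₐ[k] PowerSeries k, (∀ b ∈ q, Φ b = 0) ∧ Φ μ ≠ 0 by
    obtain ⟨Φ, h1, h2⟩ := h
    exact ⟨Φ, h1, h2, PO_const k N Φ⟩
  obtain ⟨φ₀, hφ₀i, hφ₀f⟩ := hC
  have hdom : IsDomain (BB k N ⧸ q) := Ideal.Quotient.isDomain q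
  have hInf : Infinite k := IsAlgClosed.instInfinite
  cases n with
  | zero =>
    have hs0 : Function.Surjective (algebraMap k (BB k 0)) := by
      intro b
      refine ⟨constantCoeff b, ?_⟩
      rw [MvPowerSeries.algebraMap_apply]
      ext m
      have hm : m = 0 := Subsingleton.elim _ _
      rw [hm]
      simp
    have h1 : (φ₀.toRingHom.comp (algebraMap k (BB k 0))).Finite :=
      hφ₀f.comp (RingHom.Finite.of_surjective _ hs0)
    have h2 : φ₀.toRingHom.comp (algebraMap k (BB k 0)) = algebraMap k (BB k N ⧸ q) :=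
      φ₀.comp_algebraMap
    rw [h2] at h1
    have hfin : Module.Finite k (BB k N ⧸ q) := RingHom.finite_algebraMap.mp h1
    have hint : Algebra.IsIntegral k (BB k N ⧸ q) := inferInstance
    obtain ⟨a, ha⟩ := (IsAlgClosed.algebraMap_bijective_of_isIntegral (k := k)
      (K := BB k N ⧸ q)).2 (Ideal.Quotient.mk q μ)
    have ha' : μ - algebraMap k (BB k N) a ∈ q := by
      rw [← Ideal.Quotient.eq_zero_iff_mem, map_sub, ← ha]
      exact sub_self _
    let Φ : BB k N →ₐ[k] PowerSeries k :=
      { (PowerSeries.C (R := k)).comp (constantCoeff (σ := Fin N) (R := k)) with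
        commutes' := by
          intro r
          change PowerSeries.C (constantCoeff (algebraMap k (BB k N) r)) = algebraMap k _ r
          rw [MvPowerSeries.algebraMap_apply, PowerSeries.algebraMap_apply]
          simp }
    have hΦ : ∀ b, Φ b = PowerSeries.C (constantCoeff b) := fun b => rfl
    refine ⟨Φ, fun b hb => by rw [hΦ, PO_le k N q hq b hb, map_zero], ?_⟩
    intro h
    rw [hΦ] at h
    have h3 : constantCoeff μ = 0 := by
      have := congrArg PowerSeries.constantCoeff h
      simpa using this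
    have h4 := PO_le k N q hq _ ha'
    rw [map_sub, h3, MvPowerSeries.algebraMap_apply] at h4
    simp only [Algebra.algebraMap_self, RingHom.id_apply, MvPowerSeries.constantCoeff_C, zero_sub,
      neg_eq_zero] at h4
    rw [h4, map_zero, sub_zero] at ha'
    exact hμ ha'
  | succ n =>
    let : Algebra (BB k (n + 1)) (BB k N ⧸ q) := φ₀.toRingHom.toAlgebra
    have hfin : Module.Finite (BB k (n + 1)) (BB k N ⧸ q) := hφ₀f
    have hPdom : IsDomain (BB k (n + 1)) := NoZeroDivisors.to_isDomain _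
    have hint : Algebra.IsIntegral (BB k (n + 1)) (BB k N ⧸ q) := inferInstance
    have halg : Algebra.IsAlgebraic (BB k (n + 1)) (BB k N ⧸ q) := inferInstance
    have hμ0 : Ideal.Quotient.mk q μ ≠ 0 := fun h => hμ (Ideal.Quotient.eq_zero_iff_mem.mp h)
    obtain ⟨c, hc0, hc⟩ := (halg.isAlgebraic (Ideal.Quotient.mk q μ)).exists_nonzero_dvd
      (mem_nonZeroDivisors_of_ne_zero hμ0)
    obtain ⟨ψ, hψs, hψc⟩ := hPO1 k n c hc0
    have hkp : (RingHom.ker ψ.toRingHom).IsPrime := RingHom.ker_isPrime _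
    have hker0 : RingHom.ker (algebraMap (BB k (n + 1)) (BB k N ⧸ q)) ≤ RingHom.ker ψ.toRingHom := by
      intro x hx
      have h1 : φ₀ x = 0 := hx
      rw [map_eq_zero_iff φ₀ hφ₀i] at h1
      rw [h1]; exact zero_mem _
    obtain ⟨Q, hQ, hQc⟩ := Ideal.exists_ideal_over_prime_of_isIntegral_of_isDomain
      (S := BB k N ⧸ q) (RingHom.ker ψ.toRingHom) hker0
    have hDdom : IsDomain ((BB k N ⧸ q) ⧸ Q) := Ideal.Quotient.isDomain Q
    let β : BB k (n + 1) →ₐ[k] (BB k N ⧸ q) ⧸ Q := (Ideal.Quotient.mkₐ k Q).comp φ₀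
    have hβ : ∀ x, β x = 0 ↔ ψ x = 0 := by
      intro x
      have h1 : β x = Ideal.Quotient.mk Q (φ₀ x) := rfl
      rw [h1, Ideal.Quotient.eq_zero_iff_mem]
      have h2 : x ∈ Q.comap (algebraMap (BB k (n + 1)) (BB k N ⧸ q)) ↔
        x ∈ RingHom.ker ψ.toRingHom := by rw [hQc]
      exact h2
    let γ : (BB k (n + 1) ⧸ RingHom.ker ψ) →ₐ[k] (BB k N ⧸ q) ⧸ Q :=
      Ideal.Quotient.liftₐ (RingHom.ker ψ) β (fun a ha => (hβ a).mpr ha)
    have hγi : Function.Injective γ := by
      rw [injective_iff_map_eq_zero]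
      intro y hy
      obtain ⟨x, rfl⟩ := Ideal.Quotient.mk_surjective y
      have h1 : β x = 0 := hy
      exact Ideal.Quotient.eq_zero_iff_mem.mpr ((hβ x).mp h1)
    have hβf : β.toRingHom.Finite :=
      (RingHom.Finite.of_surjective _ Ideal.Quotient.mk_surjective).comp hφ₀f
    have hγf : γ.toRingHom.Finite := by
      apply RingHom.Finite.of_comp_finite (f := Ideal.Quotient.mk (RingHom.ker ψ))
      exact hβf
    let e := (Ideal.quotientKerAlgEquivOfSurjective hψs).symm
    let φD : PowerSeries k →ₐ[k] (BB k N ⧸ q) ⧸ Q := γ.comp e.toAlgHom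
    have hφDi : Function.Injective φD := hγi.comp e.injective
    have hφDf : φD.toRingHom.Finite :=
      hγf.comp (RingHom.Finite.of_surjective e.toAlgHom.toRingHom e.surjective)
    obtain ⟨χ, hχ⟩ := hPO2 k ((BB k N ⧸ q) ⧸ Q) φD hφDi hφDf
    refine ⟨(χ.comp (Ideal.Quotient.mkₐ k Q)).comp (Ideal.Quotient.mkₐ k q), ?_, ?_⟩
    · intro b hb
      have h1 : Ideal.Quotient.mk q b = 0 := Ideal.Quotient.eq_zero_iff_mem.mpr hb
      simp only [AlgHom.comp_apply, Ideal.Quotient.mkₐ_eq_mk, h1, map_zero]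
    · intro h
      have h1 : χ (Ideal.Quotient.mk Q (Ideal.Quotient.mk q μ)) = 0 := h
      rw [map_eq_zero_iff χ hχ] at h1
      obtain ⟨d, hd⟩ := hc
      have h2 : β c = 0 := by
        have h3 : β c = Ideal.Quotient.mk Q (algebraMap _ _ c) := rfl
        rw [h3, hd, map_mul, h1, zero_mul]
      exact hψc ((hβ c).mp h2)

end

end AN

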